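import Pool.Agent.W422.PI.Stm

set_option autoImplicit false

/-! PI-CW: Chevalley-Warning for the Pfaffian. -/

namespace Pool.Agent.W978.PI

open Matrix MvPolynomial Pool.Agent.W422.PI

section
variable {p : ℕ} [hp : Fact p.Prime] {R : Type} [CommRing R] [Algebra (ZMod p) R] {g : ℕ}
  (r : Module.Basis (Fin g) (ZMod p) R) (l : R →ₗ[ZMod p] ZMod p)

/-- the symmetric matrix -/
noncomputable def Sm (a : R) : Matrix (Fin g) (Fin g) (ZMod p) := Matrix.of fun i j => l (a * r i * r j)

theorem Em_eq (a : R) : Em r l a = fromBlocks 0 (Sm r l a) (-(Sm r l a)) 0 := rfl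

theorem det_J_ne : (Jm g (ZMod p)).det ≠ 0 := by
  intro h
  have h1 : Jm g (ZMod p) * (-(Jm g (ZMod p))) = 1 := by
    unfold Jm
    rw [fromBlocks_neg, fromBlocks_multiply]
    simp
  have h2 := congrArg Matrix.det h1
  rw [det_mul, h, zero_mul, det_one] at h2
  exact zero_ne_one h2

theorem det_Em (a : R) :
    (Em r l a).det = (Sm r l a).det * (Sm r l a).det * (Jm g (ZMod p)).det := by
  have h : fromBlocks 0 (Sm r l a) (-(Sm r l a)) 0 =
      fromBlocks (Sm r l a) 0 0 (Sm r l a) * Jm g (ZMod p) := by
    unfold Jm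
    rw [fromBlocks_multiply]
    simp
  rw [Em_eq, h, det_mul, det_fromBlocks_zero₂₁]

theorem Sm_mulVec (a : R) (v : Fin g → ZMod p) (i : Fin g) :
    (Sm r l a *ᵥ v) i = l (a * (∑ j, v j • r j) * r i) := by
  rw [Finset.mul_sum, Finset.sum_mul, map_sum]
  simp only [Matrix.mulVec, dotProduct, Sm, Matrix.of_apply]
  apply Finset.sum_congr rfl
  intro j _
  rw [mul_smul_comm, smul_mul_assoc, map_smul, smul_eq_mul, mul_comm (v j), mul_right_comm a]

theorem det_Em_zero [Finite R] (hl : ∀ x : R, (∀ y : R, l (x * y) = 0) → x = 0) (a : R) :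
    (Em r l a).det = 0 ↔ ¬ IsUnit a := by
  rw [det_Em, mul_eq_zero, or_iff_left det_J_ne, mul_self_eq_zero, ← exists_mulVec_eq_zero_iff,
    isUnit_iff_mem_nonZeroDivisors_of_finite]
  have key : ∀ v : Fin g → ZMod p, Sm r l a *ᵥ v = 0 ↔ a * (∑ j, v j • r j) = 0 := by
    intro v
    constructor
    · intro h
      apply hl
      intro y
      have e : a * (∑ j, v j • r j) * y =
          ∑ i, r.repr y i • (a * (∑ j, v j • r j) * r i) := by
        conv_lhs => rw [← r.sum_repr y]
        rw [Finset.mul_sum]
        apply Finset.sum_congr rfl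
        intro i _
        rw [mul_smul_comm]
      rw [e, map_sum]
      apply Finset.sum_eq_zero
      intro i _
      rw [map_smul, ← Sm_mulVec, h, Pi.zero_apply, smul_zero]
    · intro h
      funext i
      rw [Sm_mulVec, h, zero_mul, map_zero, Pi.zero_apply]
  constructor
  · rintro ⟨v, hv, hv2⟩ ha
    rw [key, mul_left_mem_nonZeroDivisors_eq_zero_iff ha, ← r.equivFun_symm_apply] at hv2
    apply hv
    exact r.equivFun.symm.map_eq_zero_iff.mp hv2
  · intro ha
    rw [mem_nonZeroDivisors_iff_left] at ha
    push Not at ha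
    obtain ⟨b, hb1, hb2⟩ := ha
    refine ⟨r.equivFun b, fun h => hb2 (r.equivFun.map_eq_zero_iff.mp h), ?_⟩
    rw [key, ← r.equivFun_symm_apply, LinearEquiv.symm_apply_apply]
    exact hb1

/-- linearity -/
noncomputable def EmL : R →ₗ[ZMod p] Matrix (Fin g ⊕ Fin g) (Fin g ⊕ Fin g) (ZMod p) where
  toFun a := Em r l a
  map_add' x y := by
    ext i j
    rcases i with i | i <;> rcases j with j | j <;>
      simp [Em, add_mul, map_add]
    ring
  map_smul' c x := by
    ext i j
    rcases i with i | i <;> rcases j with j | j <;>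
      simp [Em]

theorem EmL_apply (a : R) : EmL r l a = Em r l a := rfl

theorem Em_anti (a : R) (i j : Fin g ⊕ Fin g) : Em r l a j i = - Em r l a i j := by
  have h : ∀ i j : Fin g, l (a * r i * r j) = l (a * r j * r i) := by
    intro i j
    rw [mul_right_comm]
  rcases i with i | i <;> rcases j with j | j <;> simp [Em, h i j]

theorem Em_diag (a : R) (i : Fin g ⊕ Fin g) : Em r l a i i = 0 := by
  rcases i with i | i <;> simp [Em]

/-- the matrix of linear forms -/
noncomputable def Mm (A : Matrix (Fin g ⊕ Fin g) (Fin g ⊕ Fin g) (ZMod p)) :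
    Matrix (Fin g ⊕ Fin g) (Fin g ⊕ Fin g) (MvPolynomial (Option (Fin g)) (ZMod p)) :=
  Matrix.of fun i j => X none * C (A i j) + ∑ k, X (some k) * C (Em r l (r k) i j)

theorem Mm_alt {A : Matrix (Fin g ⊕ Fin g) (Fin g ⊕ Fin g) (ZMod p)} (hA : Alt A) :
    Alt (Mm r l A) := by
  constructor
  · ext1 i j
    rw [Matrix.transpose_apply, Matrix.neg_apply]
    unfold Mm
    rw [Matrix.of_apply, Matrix.of_apply]
    have h1 : A j i = - A i j := by
      have := congrFun (congrFun hA.1 i) j
      rwa [Matrix.transpose_apply, Matrix.neg_apply] at this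
    rw [h1, neg_add, ← Finset.sum_neg_distrib, C_neg, mul_neg]
    congr 1
    apply Finset.sum_congr rfl
    intro k _
    rw [Em_anti, C_neg, mul_neg]
  · intro i
    unfold Mm
    rw [Matrix.of_apply, hA.2 i, C_0, mul_zero, zero_add]
    apply Finset.sum_eq_zero
    intro k _
    rw [Em_diag, C_0, mul_zero]

theorem Mm_eval (A : Matrix (Fin g ⊕ Fin g) (Fin g ⊕ Fin g) (ZMod p))
    (x : Option (Fin g) → ZMod p) :
    eval x (Mm r l A).det = (x none • A + Em r l (∑ k, x (some k) • r k)).det := by
  rw [RingHom.map_det]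
  congr 1
  rw [← EmL_apply, map_sum]
  ext i j
  rw [RingHom.mapMatrix_apply, Matrix.map_apply, Matrix.add_apply, Matrix.smul_apply,
    Matrix.sum_apply]
  unfold Mm
  rw [Matrix.of_apply, map_add, map_mul, eval_X, eval_C, map_sum, smul_eq_mul]
  congr 1
  apply Finset.sum_congr rfl
  intro k _
  rw [map_mul, eval_X, eval_C, map_smul, EmL_apply, Matrix.smul_apply, smul_eq_mul]

theorem Mm_deg (A : Matrix (Fin g ⊕ Fin g) (Fin g ⊕ Fin g) (ZMod p)) :
    (Mm r l A).det.totalDegree ≤ 2 * g := by
  have h1 : ∀ i j, (Mm r l A i j).totalDegree ≤ 1 := by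
    intro i j
    unfold Mm
    rw [Matrix.of_apply]
    have h2 : ∀ (s : Option (Fin g)) (c : ZMod p),
        (X s * C c : MvPolynomial (Option (Fin g)) (ZMod p)).totalDegree ≤ 1 := by
      intro s c
      refine (totalDegree_mul _ _).trans ?_
      rw [totalDegree_X, totalDegree_C]
    refine (totalDegree_add _ _).trans (max_le (h2 _ _) ?_)
    exact totalDegree_finsetSum_le fun k _ => h2 _ _
  rw [Matrix.det_apply]
  refine totalDegree_finsetSum_le fun σ _ => ?_
  refine (totalDegree_smul_le _ _).trans ?_
  refine (totalDegree_finsetProd _ _).trans ?_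
  refine (Finset.sum_le_sum fun i _ => h1 _ _).trans ?_
  simp
  omega

end

/-- a finite reduced algebra has no unit of order `p` -/
theorem units_not_dvd (p : ℕ) [hp : Fact p.Prime] (R : Type) [CommRing R] [Algebra (ZMod p) R]
    [IsReduced R] [Nontrivial R] [Finite R] : ¬ p ∣ Nat.card Rˣ := by
  intro h
  haveI : CharP R p := charP_of_injective_algebraMap (algebraMap (ZMod p) R).injective p
  haveI : Finite Rˣ := inferInstance
  obtain ⟨u, hu⟩ := exists_prime_orderOf_dvd_card' p h
  have h1 : ((u : R) - 1) ^ p = 0 := by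
    rw [sub_pow_char, one_pow, ← Units.val_pow_eq_pow_val, ← hu, pow_orderOf_eq_one, Units.val_one,
      sub_self]
  have h2 : (u : R) - 1 = 0 := IsReduced.eq_zero _ ⟨p, h1⟩
  have h3 : u = 1 := Units.ext (by rw [Units.val_one]; exact sub_eq_zero.mp h2)
  rw [h3, orderOf_one] at hu
  exact hp.out.one_lt.ne hu

theorem main (h : SQ) : CW := by
  classical
  intro p hp R _ _ _ g hg r l hl A hA
  haveI : Finite R := Finite.of_equiv (Fin g → ZMod p) r.equivFun.symm.toEquiv
  haveI := Fintype.ofFinite R
  haveI : Nontrivial R := by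
    refine ⟨⟨r ⟨0, hg⟩, 0, r.ne_zero _⟩⟩
  set D : ZMod p → R → ZMod p := fun s a => (s • A + Em r l a).det with hD
  set Z : ZMod p → ℕ := fun s => (Finset.univ.filter fun a : R => D s a = 0).card with hZ
  -- number of elements
  have hcardR : Fintype.card R = p ^ g := by
    rw [Fintype.card_congr r.equivFun.toEquiv]
    simp [ZMod.card]
  have hpR : p ∣ Fintype.card R := by
    rw [hcardR]
    exact dvd_pow_self _ hg.ne'
  -- the square root of the determinant
  obtain ⟨P, hP⟩ := h (MvPolynomial (Option (Fin g)) (ZMod p)) g (Mm r l A) (Mm_alt r l hA)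
  have hdeg : P.totalDegree < Fintype.card (Option (Fin g)) := by
    have h1 := Mm_deg r l A
    rw [hP] at h1
    rw [Fintype.card_option, Fintype.card_fin]
    by_cases h0 : P = 0
    · rw [h0, totalDegree_zero]
      omega
    · rw [totalDegree_mul_of_isDomain h0 h0] at h1
      omega
  have hzero : ∀ x : Option (Fin g) → ZMod p,
      eval x P = 0 ↔ D (x none) (∑ k, x (some k) • r k) = 0 := by
    intro x
    rw [hD]
    simp only
    rw [← Mm_eval, hP, map_mul, mul_self_eq_zero]
  have hCW := char_dvd_card_solutions p hdeg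
  have hcard : Fintype.card {x : Option (Fin g) → ZMod p // eval x P = 0} = ∑ s : ZMod p, Z s := by
    rw [Fintype.card_congr (Equiv.subtypeEquiv ((Equiv.piOptionEquivProd (β := fun _ => ZMod p)).trans
      (Equiv.prodCongr (Equiv.refl (ZMod p)) r.equivFun.symm.toEquiv))
      (q := fun q : ZMod p × R => D q.1 q.2 = 0) (fun x => by
        rw [hzero]
        show _ ↔ D (x none) (r.equivFun.symm fun k => x (some k)) = 0
        rw [r.equivFun_symm_apply])), Fintype.card_subtype]
    simp only [hZ, Finset.card_filter]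
    rw [Fintype.sum_prod_type]
  rw [hcard] at hCW
  -- scaling
  have hscale : ∀ s : ZMod p, s ≠ 0 → Z s = Z 1 := by
    intro s hs
    have h1 : ∀ a : R, D s a = 0 ↔ D 1 (s⁻¹ • a) = 0 := by
      intro a
      have e : s • A + Em r l a = s • ((1 : ZMod p) • A + Em r l (s⁻¹ • a)) := by
        rw [← EmL_apply, ← EmL_apply, map_smul, smul_add, smul_smul, smul_smul, mul_one,
          mul_inv_cancel₀ hs, one_smul]
      rw [hD]
      simp only
      rw [e, det_smul, mul_eq_zero, or_iff_right (pow_ne_zero _ hs)]
    rw [hZ]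
    simp only
    refine Finset.card_nbij' (fun a => s⁻¹ • a) (fun a => s • a) ?_ ?_ ?_ ?_
    · intro a ha
      simp only [Finset.coe_filter, Finset.mem_univ, true_and, Set.mem_setOf_eq] at ha ⊢
      exact (h1 a).mp ha
    · intro a ha
      simp only [Finset.coe_filter, Finset.mem_univ, true_and, Set.mem_setOf_eq] at ha ⊢
      rw [h1, smul_smul, inv_mul_cancel₀ hs, one_smul]
      exact ha
    · intro a _
      simp only
      rw [smul_smul, mul_inv_cancel₀ hs, one_smul]
    · intro a _
      simp only
      rw [smul_smul, inv_mul_cancel₀ hs, one_smul]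
  -- the fibre over 0
  have hZ0 : Z 0 + Nat.card Rˣ = Fintype.card R := by
    have h1 : (Finset.univ.filter fun a : R => IsUnit a).card = Nat.card Rˣ := by
      rw [Nat.card_eq_fintype_card, ← Finset.card_univ,
        ← Finset.card_image_of_injective Finset.univ (Units.val_injective (α := R))]
      congr 1
      ext a
      simp only [Finset.mem_filter, Finset.mem_univ, true_and, Finset.mem_image]
      exact Iff.rfl
    have h2 : Z 0 = (Finset.univ.filter fun a : R => ¬ IsUnit a).card := by
      rw [hZ]
      simp only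
      congr 1
      ext a
      simp only [Finset.mem_filter, Finset.mem_univ, true_and]
      rw [← det_Em_zero r l hl a, hD]
      simp only
      rw [zero_smul, zero_add]
    rw [h2, ← h1, add_comm, Finset.card_filter_add_card_filter_not, Finset.card_univ]
  have hN : ¬ p ∣ Z 1 := by
    intro hN
    have h1 : ∑ s : ZMod p, Z s = Z 0 + ∑ s ∈ Finset.univ.erase (0 : ZMod p), Z s :=
      (Finset.add_sum_erase _ _ (Finset.mem_univ _)).symm
    have h2 : p ∣ ∑ s ∈ Finset.univ.erase (0 : ZMod p), Z s := by
      refine Finset.dvd_sum fun s hs => ?_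
      rw [hscale s (Finset.ne_of_mem_erase hs)]
      exact hN
    rw [h1] at hCW
    have h3 : p ∣ Z 0 := (Nat.dvd_add_left h2).mp hCW
    have h4 : p ∣ Nat.card Rˣ := by
      rw [← hZ0] at hpR
      exact (Nat.dvd_add_right h3).mp hpR
    exact units_not_dvd p R h4
  constructor
  · by_contra hcon
    push Not at hcon
    apply hN
    have : Z 1 = 0 := by
      rw [hZ]
      simp only
      rw [Finset.card_eq_zero, Finset.filter_eq_empty_iff]
      intro a _ ha
      apply hcon a
      rw [hD] at ha
      simp only at ha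
      rwa [one_smul] at ha
    rw [this]
    exact dvd_zero _
  · by_contra hcon
    push Not at hcon
    apply hN
    have : Z 1 = Fintype.card R := by
      rw [hZ]
      simp only
      rw [← Finset.card_univ]
      congr 1
      rw [Finset.filter_eq_self]
      intro a _
      rw [hD]
      simp only
      rw [one_smul]
      exact hcon a
    rw [this]
    exact hpR

end Pool.Agent.W978.PI
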